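import Mathlib
import Pool.Agent.TH170.TT.DegAb
import Pool.Agent.W537.PC.Final

/-!
# The period conjecture for all powers of the abelian varieties of almost all CM types of abelian CM
fields: the de Rham-Betti torsor is the motivic torsor of periods

Let `X` be a product of copies of finitely many abelian varieties `A i` over the field of algebraic
numbers with complex multiplication by CM fields `E i` that are abelian over `ℚ`, of CM types `Φ i`.
The conjecture of Grothendieck says that the period isomorphism `c` of `X` is Zariski dense in the
torsor `Ω^mot` of the isomorphisms which respect the classes of algebraic cycles on all powers of `X`.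
The first step from `Ω^mot` towards the Zariski closure of `c` is the torsor `Ω^dRB` of the
isomorphisms which respect all de Rham-Betti classes: classes `f ∈ H^{2m}(X ^ n, ℚ)` such that
`(2 π i) ^ m f` lies in `H^{2m}_dR(X ^ n / ℚ̄)` (all tensor spaces of `h^1 (X)` are, up to Tate twists and
duals, which are given by a polarization, contained in these spaces). The conjecture implies that
all de Rham-Betti classes are combinations of classes of algebraic cycles, that is
`Ω^dRB = Ω^mot`.

`DRBAreDivisorial P Φ` says: for all products `X` of copies of the `A i` the de Rham-Betti classes in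
`H^{2m}(X, ℚ)`, all `m`, are linear combinations with rational coefficients of products of `m` Hodge
classes of degree two; by the theorem of Lefschetz these are classes of divisors. So
`Ω^dRB = Ω^mot` for all motives generated by the `h^1 (A i)`.

As in earlier work in this repository (`Pool.Agent.W537.PC`, helper537) the periods enter as a
`PeriodSystem`: a nonzero number `θ A φ` for every CM type `A = (E, Φ)` and every embedding `φ` of
`E`, such that the theorem of Bost (de Rham-Betti classes of degree two on abelian varieties of CM
type are Hodge classes; a consequence of the theorem of Wüstholz) and the theorem of Deligne (Hodge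
classes on abelian varieties are de Rham-Betti classes) hold. Both are theorems for the true periods.

1. For a CM field `E` of degree `2 g` that is abelian over `ℚ` the number of the CM types `Φ`, among
   the `2 ^ g` CM types of `E`, for which `DRBAreDivisorial` does not hold (for some power of the
   abelian variety of CM type `Φ`) is at most `2 ^ g` times the sum, over the imaginary cyclic
   subfields `K` of `E`, of `(binomial (n, n / 2) / 2 ^ n) ^ φ(m)`, where `m = [K : ℚ]` and
   `n = [E : K]`; and subfields `K` with `m` a power of two and `n` odd can be omitted.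
2. There is an absolute constant `C` such that for all abelian CM fields `E` the proportion of
   these CM types is at most `N 2 / √g + (2 N 4 + 3 N 6 + C) / g`, where `N m` is the number of
   imaginary cyclic subfields of degree `m` of `E`, and the first term is omitted if `g` is odd. The
   proportion is at most `C / g` if `E` is cyclic, and at most `2 ^ r / √g + C 6 ^ r / g` if the
   Galois group is generated by `r` elements.
3. More generally `DRBAreDivisorial` holds for all families of CM types `Φ i` of pairwise independent
   abelian CM fields `E i` which are not degenerate.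
-/

namespace Pool.Agent.Results.MP_77d3f5_ag.CycleClassesAbelianCM

open NumberField Module Pool.Agent.H204R3.CM Pool.Agent.H977R3.CM Pool.Agent.TH170.CM
  Pool.Agent.TH170.TT Pool.Agent.W547.KB Pool.Agent.W537.PC Pool.Agent.W546.GHC

/-- All de Rham-Betti classes on the abelian variety `X` of CM type are linear combinations of
products of Hodge classes of degree two (of divisors). -/
def DivisorialDRB (P : PeriodSystem) (X : CMAV) : Prop :=
  ∀ (m : ℕ) (f : X.H1 [⋀^Fin (2 * m)]→ₗ[ℚ] ℚ), P.IsDRB X m f →
    f ∈ Submodule.span ℚ (divisorProducts X.per (2 * m) m)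

/-- The same for all products of copies of the abelian varieties of CM type `(E i, Φ i)`. -/
def DRBAreDivisorial (P : PeriodSystem) {ι : Type} {E : ι → Type} [∀ i, Field (E i)]
    [∀ i, NumberField (E i)] [∀ i, IsCMField (E i)] (Φ : ∀ i, Set (E i →+* ℂ)) : Prop :=
  ∀ (hΦ : ∀ i, IsCMType (Φ i)) (J : Type) [Fintype J] (t : J → ι), DivisorialDRB P (product hΦ t)

/-- The CM types `Φ` of `E` with a de Rham-Betti class on a power of the abelian variety of CM type
`(E, Φ)` which is not a linear combination of products of divisor classes. -/
def exceptionalTypes (P : PeriodSystem) (E : Type) [Field E] [NumberField E] [IsCMField E] :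
    Set (Set (E →+* ℂ)) :=
  {Φ | IsCMType Φ ∧ ¬ DRBAreDivisorial P (fun _ : Unit => Φ)}

/-- The bounds of 1. and 2. for the number of the CM types in the sets `B E`. -/
def Rare (B : ∀ (E : Type) [Field E] [NumberField E] [IsCMField E], Set (Set (E →+* ℂ))) : Prop :=
  (∀ (E : Type) [Field E] [NumberField E] [IsCMField E] [IsAbelianGalois ℚ E],
    ((B E).ncard : ℝ) ≤ 2 ^ (finrank ℚ E / 2) *
      ∑ᶠ K ∈ ImagCyclic E, weight (finrank ℚ K) (finrank K E)) ∧
  ∃ C : ℝ, ∀ (E : Type) [Field E] [NumberField E] [IsCMField E] [IsAbelianGalois ℚ E] (g : ℕ),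
    finrank ℚ E = 2 * g →
    ((B E).ncard : ℝ) ≤ 2 ^ g * ((if Even g then numImagCyclic E 2 / Real.sqrt g else 0) +
      (2 * numImagCyclic E 4 + 3 * numImagCyclic E 6 + C) / g) ∧
    (IsCyclic (E ≃ₐ[ℚ] E) → ((B E).ncard : ℝ) ≤ 2 ^ g * (C / g)) ∧
    ∀ s : Finset (E ≃ₐ[ℚ] E), Subgroup.closure (s : Set (E ≃ₐ[ℚ] E)) = ⊤ →
      ((B E).ncard : ℝ) ≤
        2 ^ g * ((if Even g then 2 ^ s.card / Real.sqrt g else 0) + C * 6 ^ s.card / g)

theorem isAbelian_of (E : Type) [Field E] [NumberField E] [IsAbelianGalois ℚ E] : IsAbelian E :=
  ⟨inferInstance, fun a b => mul_comm' a b⟩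

/-- **De Rham-Betti classes on all powers of the abelian varieties of almost all CM types of abelian
CM fields are classes of intersections of divisors.** -/
theorem result (P : PeriodSystem) (hBost : P.Bost) (hDeligne : P.Deligne) :
    Rare (exceptionalTypes P) ∧
    ∀ {ι : Type} [Fintype ι] (E : ι → Type) [∀ i, Field (E i)] [∀ i, NumberField (E i)]
      [∀ i, IsCMField (E i)], (∀ i, IsAbelian (E i)) → PairwiseIndep E →
      ∀ Φ : ∀ i, Set (E i →+* ℂ), (∀ i, IsCMType (Φ i)) →
        (∀ i, Φ i ∉ degenerateTypes (E i)) → DRBAreDivisorial P Φ := by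
  have h : ∀ {ι : Type} [Fintype ι] (E : ι → Type) [∀ i, Field (E i)] [∀ i, NumberField (E i)]
      [∀ i, IsCMField (E i)], (∀ i, IsAbelian (E i)) → PairwiseIndep E →
      ∀ Φ : ∀ i, Set (E i →+* ℂ), (∀ i, IsCMType (Φ i)) →
        (∀ i, Φ i ∉ degenerateTypes (E i)) → DRBAreDivisorial P Φ := by
    intro ι _ E _ _ _ hab hind Φ hΦ hnd hΦ' J _ t m f hf
    have h1 : IsHodge (product hΦ' t).per f :=
      hodge_of_drb P hBost hDeligne (product hΦ' t) (fun j => hab (t j)) m f hf
    exact hodge_mem t hΦ' (levelFree_of_not_degenerate hΦ' hind
      (fun i hd => hnd i ⟨hΦ i, hd⟩) (2 * m)) le_rfl f h1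
  obtain ⟨h1, h2⟩ := ncard_abelian' (fun E _ _ _ Φ => DRBAreDivisorial P (fun _ : Unit => Φ))
    (fun E _ _ _ _ Φ hΦ hnd => h (fun _ : Unit => E) (fun _ => isAbelian_of E)
      (pairwiseIndep_unit E) (fun _ => Φ) (fun _ => hΦ) (fun _ hd => hnd hd.2))
  exact ⟨⟨h1, h2⟩, h⟩

end Pool.Agent.Results.MP_77d3f5_ag.CycleClassesAbelianCM
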