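import Mathlib
import Pool.Agent.TH127.PG.IndepTypes

/-!
# The torsor of de Rham-Betti classes and the motivic torsor of periods for abelian varieties of CM
# type whose embeddings fall into good classes

Let `A i` be abelian varieties of CM types `(E i, Φ i)` over the field of all algebraic numbers, and
let `X` be a product of copies of the `A i`. The period isomorphism of `X` is a point of the torsor
`Ω^dRB` of the isomorphisms which respect the de Rham-Betti classes on all powers of `X`: the classes
`f ∈ H^{2m}(X ^ n, ℚ)` such that `(2 π i) ^ m f` lies in `H^{2m}_dR(X ^ n / ℚ̄)`. The conjecture of
Grothendieck implies that these classes are combinations of classes of algebraic cycles, that is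
`Ω^dRB = Ω^mot`. `AllDRBDivisorial` says that all de Rham-Betti classes on all products `X` of copies
of the `A i` are rational linear combinations of products of divisor classes.

Two embeddings `x`, `y` of the fields `E i` (or of a family of subfields) into the complex numbers
are *flipped* if some automorphism of `ℂ` fixes one of them and conjugates the other, or maps `x` to
`y` and `y` to the complex conjugate of `x`. The *classes* are those of the equivalence relation
generated by not being flipped. A class is *good* if its elements are translates of each other and
the number `b` of its pairs of conjugate embeddings is `1` or a prime number, or any two pairs can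
be moved to any two others and `b` is odd or `b - 1` is prime or the same is true for three pairs.

1. Let the `A i` be simple and pairwise non-isogenous, and let every family of CM subfields `T i` of
   the `E i`, `i ∈ S`, be mild (`MildFamily`, helper527) or have a good class of embeddings
   (`MildOrGood`). Then `AllDRBDivisorial` holds if and only if the periods
   `d ψ = ∏ θ φ ^ 2 / (2 π i)`, over the extensions `φ` of the embedding `ψ` of a CM subfield `T i` of
   `E i`, are separated: for two different embeddings `ψ`, `ψ'` (of equal subfields if they lie in
   the same `E i`) and `m, n > 0` not all conjugates of `(d ψ) ^ m / (d ψ') ^ n` are algebraic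
   (`PeriodsSeparated`).
2. If all classes of embeddings of the `E i` are good then `MildOrGood` holds, and if moreover the
   `E i` have no proper CM subfields and are pairwise non-isomorphic (`Rigid`) then
   `AllDRBDivisorial` holds, for all CM types `Φ i`.
3. All classes are good if for all `i ≠ i'` some automorphism of `ℂ` fixes all embeddings of `E i`
   and conjugates all embeddings of `E i'` (`Independent`) and if all `E i` have the property
   `FewPerClass`: the degree of `E` is `2 n` and `n` is `1`, a prime number, or a product of two prime
   numbers and the embeddings of `E` do not form one class; or `v > n / 4`; or `n` is odd and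
   `v > n / 9`. Here `2 ^ v` is the number of the sets `D` of embeddings of `E` such that some
   automorphism of `ℂ` conjugates the elements of `D` and fixes the other embeddings (it is the
   degree of the Galois closure of `E` over the Galois closure of its maximal real subfield).

As in earlier work in this repository (`Pool.Agent.W537.PC`, helper537) the periods enter as a
`PeriodSystem`: a nonzero number `θ A φ` for every CM type `A = (E, Φ)` and every embedding `φ` of
`E`, such that the theorem of Bost (de Rham-Betti classes of degree two on abelian varieties of CM
type are Hodge classes; a consequence of the theorem of Wüstholz) and the theorem of Deligne (Hodge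
classes on abelian varieties are de Rham-Betti classes) hold. Both are theorems for the true periods.
-/

namespace Pool.Agent.Results.MP_77d3f5_ag.GoodClassCycles

open NumberField Module Pool.Agent.W547.KB Pool.Agent.W537.PC Pool.Agent.W527.Struct
  Pool.Agent.TH127.SC Pool.Agent.TH127.PG

/-- **The de Rham-Betti classes on products of abelian varieties of CM type with good classes of
embeddings.** -/
theorem result (P : PeriodSystem) (hBost : P.Bost) (hDeligne : P.Deligne) {ι : Type} [Fintype ι]
    (A : ι → CMPair) :
    -- 1
    (IsPrimitive A → MildOrGood A → (AllDRBDivisorial A P ↔ PeriodsSeparated A P)) ∧
    -- 2
    ((∀ x : Embs (fun i => (A i).E), Good x) →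
      MildOrGood A ∧ (Rigid A → AllDRBDivisorial A P)) ∧
    -- 3
    (Independent (fun i => (A i).E) → (∀ i, FewPerClass (A i).E) →
      ∀ x : Embs (fun i => (A i).E), Good x) := by
  refine ⟨fun hp hA => ?_, fun h => ?_, fun hind hf x => ?_⟩
  · rw [drb_criterion hBost hDeligne hp hA, periodsSeparated_iff hDeligne]
  · have hA : MildOrGood A := mildOrGood_of_good h
    exact ⟨hA, fun hR => drb_of_rigid hBost hDeligne hA hR⟩
  · exact good_of_independent (K := fun i => (A i).E) hind hf x

end Pool.Agent.Results.MP_77d3f5_ag.GoodClassCycles
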