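import Pool.Agent.TH164.Spin.Gen
import Pool.Agent.H297R2.InBakerThm

/-!
# The motivic period torsor of K3 surfaces of odd Picard number

Let `X` be a K3 surface over the field of algebraic numbers, and let `T` be its transcendental
lattice, of rank `n = 22 - ρ`. Suppose that `n` is odd and that the Hodge structure `T` has no
other endomorphisms than `ℚ`. By Zarhin the Mumford-Tate group of the Kuga-Satake abelian variety
`A` of `X` is the group `GSpin(T)`, and with algebraic coefficients `h¹(A)` is a sum of copies of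
one object `S`, on which `GSpin(T)` acts by the spin representation. (More generally, this holds
for the motives of abelian type with a period structure of orthogonal type of odd rank, for
instance for hyperkähler varieties whose motive is known to be of abelian type.)

In an algebraic basis of the Betti realization of `S`, the space `T` is spanned by matrices
`Γ₁, …, Γₙ` with algebraic entries that satisfy the Clifford relations and generate the algebra of
all matrices, and `GSpin(T)` is the group of all invertible matrices `g` with `g T g⁻¹ = T`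
(`n` is odd). Let `P` be the period matrix of `S`.

* `hDeligne` (Deligne: Hodge classes on abelian varieties are absolute Hodge classes; André: they
  are motivated): the comparison isomorphism `P` belongs to the motivic torsor, which is trivial
  over the algebraic numbers; the polarization and the relation of Legendre give the determinant.
* `hWustholz` (Wüstholz: all linear relations with algebraic coefficients between the periods of
  `A` are given by endomorphisms of `A`): the entries of `P` are linearly independent over the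
  algebraic numbers.

The theorem: if `n ≠ 5` then the motivic torsor is the smallest torsor over the algebraic numbers
that contains the comparison isomorphism. The reason is algebraic: a Lie subalgebra of `so(n)`,
`n ≠ 5`, which is irreducible in the spin representation is `so(n)`. (For `n = 5` there is the
principal `sl(2)`, which is irreducible in both representations.)
-/

set_option autoImplicit false
set_option linter.unusedSectionVars false

namespace Pool.Agent.Results.MP_77d3f5_ag.KugaSatakePeriods

open Matrix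

section defs

variable {N : Type} [Fintype N] [DecidableEq N] {n : ℕ}

/-- Matrices with algebraic entries which satisfy the relations of Clifford,
`Γᵢ² = 1` and `Γᵢ Γⱼ = - Γⱼ Γᵢ`, and generate the algebra of all matrices. -/
structure IsSpinSystem (Γ : Fin n → Matrix N N ℂ) : Prop where
  algebraic : ∀ i a b, IsAlgebraic ℚ (Γ i a b)
  sq : ∀ i, Γ i * Γ i = 1
  anti : ∀ i j, i ≠ j → Γ i * Γ j = -(Γ j * Γ i)
  generate : Algebra.adjoin ℂ (Set.range Γ) = ⊤

/-- The space of vectors. -/
def vectors (Γ : Fin n → Matrix N N ℂ) : Submodule ℂ (Matrix N N ℂ) :=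
  Submodule.span ℂ (Set.range Γ)

/-- The condition `g T g⁻¹ = T` for the space `T` of vectors. -/
def Normalizes (Γ : Fin n → Matrix N N ℂ) (g : GL N ℂ) : Prop :=
  ∀ t : Matrix N N ℂ, g.val * t * (g⁻¹).val ∈ vectors Γ ↔ t ∈ vectors Γ

theorem normalizes_mul {Γ : Fin n → Matrix N N ℂ} {x y : GL N ℂ} (hx : Normalizes Γ x)
    (hy : Normalizes Γ y) : Normalizes Γ (x * y) := by
  intro t
  have h1 := hx (y.val * t * (y⁻¹).val)
  rw [hy t] at h1
  have h2 : x.val * (y.val * t * (y⁻¹).val) * (x⁻¹).val = (x * y).val * t * ((x * y)⁻¹).val := by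
    rw [_root_.mul_inv_rev, Units.val_mul, Units.val_mul]
    simp only [Matrix.mul_assoc]
  rwa [h2] at h1

theorem normalizes_one (Γ : Fin n → Matrix N N ℂ) : Normalizes Γ 1 := by
  intro t
  rw [inv_one, Units.val_one, Matrix.one_mul, Matrix.mul_one]

theorem val_inv (x : GL N ℂ) : x.val * (x⁻¹).val = 1 := by
  rw [← Units.val_mul, mul_inv_cancel, Units.val_one]

theorem inv_val (x : GL N ℂ) : (x⁻¹).val * x.val = 1 := by
  rw [← Units.val_mul, inv_mul_cancel, Units.val_one]

theorem normalizes_inv {Γ : Fin n → Matrix N N ℂ} {x : GL N ℂ} (hx : Normalizes Γ x) :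
    Normalizes Γ x⁻¹ := by
  intro t
  rw [← hx ((x⁻¹).val * t * (x⁻¹⁻¹).val), inv_inv]
  have h1 : x.val * ((x⁻¹).val * t * x.val) * (x⁻¹).val = t := by
    calc x.val * ((x⁻¹).val * t * x.val) * (x⁻¹).val =
        (x.val * (x⁻¹).val) * t * (x.val * (x⁻¹).val) := by simp only [Matrix.mul_assoc]
      _ = t := by rw [val_inv, Matrix.one_mul, Matrix.mul_one]
  rw [h1]

/-- The Clifford group `{g | g T g⁻¹ = T}`. For odd `n` it is the group `GSpin(T)` in the spin
representation. -/
def spinGroup (Γ : Fin n → Matrix N N ℂ) : Subgroup (GL N ℂ) where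
  carrier := {g | Normalizes Γ g}
  mul_mem' := normalizes_mul
  one_mem' := normalizes_one Γ
  inv_mem' := normalizes_inv

/-- The matrix `P` is, in another algebraic basis of the de Rham space, a complex point of the
group; the square of the determinant is a power of `2πi` (the polarization and the relation of
Legendre). -/
def InMotivicTorsor (Γ : Fin n → Matrix N N ℂ) (P : Matrix N N ℂ) : Prop :=
  ∃ A : Matrix N N ℂ, (∀ i j, IsAlgebraic ℚ (A i j)) ∧
    (P * A).det ^ 2 = (2 * Real.pi * Complex.I) ^ Fintype.card N ∧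
      ∃ g ∈ spinGroup Γ, g.val = P * A

/-- The entries of `P` are linearly independent over the algebraic numbers. -/
def IndependentEntries (P : Matrix N N ℂ) : Prop :=
  LinearIndependent (algebraicClosure ℚ ℂ) fun x : N × N => P x.1 x.2

/-- A subgroup of `GL_N(ℂ)` defined by polynomials with algebraic coefficients. -/
def IsAlgebraicSubgroup (H : Subgroup (GL N ℂ)) : Prop :=
  ∃ I : Set (MvPolynomial (N × N) ℂ), (∀ p ∈ I, ∀ m, IsAlgebraic ℚ (p.coeff m)) ∧
    ∀ g : GL N ℂ, g ∈ H ↔ ∀ p ∈ I, MvPolynomial.eval (fun b => (g : Matrix N N ℂ) b.1 b.2) p = 0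

/-- The matrix `P` belongs to a torsor `H · A⁻¹` of `H` defined over the algebraic numbers. -/
def HasPoint (P : Matrix N N ℂ) (H : Subgroup (GL N ℂ)) : Prop :=
  ∃ A : Matrix N N ℂ, (∀ i j, IsAlgebraic ℚ (A i j)) ∧ ∃ g ∈ H, (g : Matrix N N ℂ) = P * A

end defs

section proof

open Pool.Agent.TH164.Spin Pool.Agent.TH119.MX

variable {N : Type} [Fintype N] [DecidableEq N] {n : ℕ}

theorem two_pi_I_transcendental : ¬ IsAlgebraic ℚ (2 * Real.pi * Complex.I : ℂ) := by
  intro h
  have h1 := Pool.Agent.H297R2.baker_inhom (ι := Unit) (fun _ => 2 * Real.pi * Complex.I)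
    (fun _ => by
      rw [Complex.exp_two_pi_mul_I]
      exact isAlgebraic_one)
    (LinearIndependent.of_subsingleton (R := ℚ) () Complex.two_pi_I_ne_zero)
    (-(2 * Real.pi * Complex.I)) h.neg (fun _ => 1) (fun _ => isAlgebraic_one) (by simp)
  exact one_ne_zero (h1.2 ())

theorem cl_of {Γ : Fin n → Matrix N N ℂ} [Nonempty N] (h : IsSpinSystem Γ) : Cl Γ where
  rel i j := by
    by_cases hij : i = j
    · rw [if_pos hij, hij, h.sq, two_smul]
    · rw [if_neg hij, zero_smul, h.anti i j hij, neg_add_cancel]
  gen := h.generate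

theorem inG_of {Γ : Fin n → Matrix N N ℂ} {g : GL N ℂ} (hg : g ∈ spinGroup Γ) :
    InG Γ g.val (g⁻¹).val where
  r := val_inv g
  l := inv_val g
  c t ht := (hg t).2 ht
  c' t ht := by
    have h1 := (normalizes_inv hg t).2 ht
    rwa [inv_inv] at h1

end proof

/-- **Theorem.** Let `n ≥ 3` be odd, `n ≠ 5`. Let `Γ₁, …, Γₙ` be matrices with algebraic entries
which satisfy the Clifford relations and generate the algebra of all matrices of their size (the
spin representation). Let `P` be a matrix whose entries are linearly independent over the algebraic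
numbers, such that `P A` belongs to `GSpin` for some algebraic matrix `A`, with the determinant of
the relation of Legendre. Then the group `GSpin` has a torsor over the algebraic numbers which
contains `P`, and it is contained in every algebraic subgroup `H` of `GL_N`, defined over the
algebraic numbers, with this property. -/
theorem result {N : Type} [Fintype N] [DecidableEq N] {n : ℕ} (hn : Odd n) (h3 : 3 ≤ n)
    (h5 : n ≠ 5) (Γ : Fin n → Matrix N N ℂ) (hΓ : IsSpinSystem Γ) (P : Matrix N N ℂ)
    (hDeligne : InMotivicTorsor Γ P) (hWustholz : IndependentEntries P) :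
    HasPoint P (spinGroup Γ) ∧
      ∀ H : Subgroup (GL N ℂ), IsAlgebraicSubgroup H → HasPoint P H → spinGroup Γ ≤ H := by
  obtain ⟨A, hA, hdet, g₀, hg₀, hPA⟩ := hDeligne
  refine ⟨⟨A, hA, g₀, hg₀, hPA⟩, ?_⟩
  rintro H hH ⟨B, hB, g₁, hg₁, hPB⟩
  rcases isEmpty_or_nonempty N with hN | hN
  · intro g _
    have h1 : g = 1 := Units.ext (Matrix.ext fun i => isEmptyElim i)
    rw [h1]
    exact one_mem H
  have hcl := cl_of hΓ
  -- inverses
  have hdet0 : ∀ (g : GL N ℂ) (C : Matrix N N ℂ), g.val = P * C → P.det ≠ 0 ∧ C.det ≠ 0 := by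
    intro g C hC
    have h4 := (Matrix.isUnit_iff_isUnit_det _).1 g.isUnit
    rw [hC, det_mul, isUnit_iff_ne_zero] at h4
    exact ⟨left_ne_zero_of_mul h4, right_ne_zero_of_mul h4⟩
  obtain ⟨hP0, hA0⟩ := hdet0 g₀ A hPA
  obtain ⟨-, hB0⟩ := hdet0 g₁ B hPB
  have hP1 : P * P⁻¹ = 1 := Matrix.mul_nonsing_inv _ (isUnit_iff_ne_zero.2 hP0)
  have hP2 : P⁻¹ * P = 1 := Matrix.nonsing_inv_mul _ (isUnit_iff_ne_zero.2 hP0)
  have hA1 : A * A⁻¹ = 1 := Matrix.mul_nonsing_inv _ (isUnit_iff_ne_zero.2 hA0)
  have hB1 : B * B⁻¹ = 1 := Matrix.mul_nonsing_inv _ (isUnit_iff_ne_zero.2 hB0)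
  have hG : Pool.Agent.TH164.Spin.InG Γ (P * A) (A⁻¹ * P⁻¹) := by
    have h4 := inG_of hg₀
    have h6 : (g₀⁻¹).val = A⁻¹ * P⁻¹ := by
      rw [← Matrix.mul_inv_rev, ← hPA, Matrix.coe_units_inv]
    rwa [hPA, h6] at h4
  have hHal : Pool.Agent.TH119.MX.AlgGrp Pool.Agent.TH164.A1.QA (Pool.Agent.TH164.A1.carr H) := by
    refine Pool.Agent.TH164.A1.algGrp_carr ?_
    obtain ⟨I, h4, h6⟩ := hH
    exact ⟨I, fun p hp m => Pool.Agent.TH164.A1.mem_QA.2 (h4 p hp m), h6⟩
  have hW : ∀ C : Matrix N N ℂ, (∀ i j, IsAlgebraic ℚ (C i j)) → ∑ p : N × N,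
      C p.1 p.2 * P p.1 p.2 = 0 → C = 0 := by
    intro C hC h4
    have h6 := Fintype.linearIndependent_iff.1 hWustholz
      (fun x => (⟨C x.1 x.2, mem_algebraicClosure_iff.2 (hC x.1 x.2)⟩ : algebraicClosure ℚ ℂ)) h4
    ext i j
    exact congrArg Subtype.val (h6 (i, j))
  have hdetP : ¬ IsAlgebraic ℚ P.det := by
    intro h4
    have hAd : IsAlgebraic ℚ A.det := by
      rw [Matrix.det_apply]
      refine Pool.Agent.TH164.A1.mem_QA.1 (Subfield.sum_mem _ fun σ _ => ?_)
      rw [Units.smul_def, zsmul_eq_mul]
      exact Subfield.mul_mem _ (intCast_mem _ _) (Subfield.prod_mem _ fun i _ =>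
        Pool.Agent.TH164.A1.mem_QA.2 (hA _ _))
    have h6 : IsAlgebraic ℚ ((2 * Real.pi * Complex.I : ℂ) ^ Fintype.card N) := by
      rw [← hdet, det_mul]
      exact (h4.mul hAd).pow 2
    exact two_pi_I_transcendental (h6.of_pow Fintype.card_pos)
  have hst := fun d => hcl.stab_all h3 h5 hHal hΓ.algebraic hP1 hP2 hG hA1 hA hB1
    (Pool.Agent.TH164.A1.inv_mem_entries fun i j => Pool.Agent.TH164.A1.mem_QA.2 (hB i j))
    (show P * B ∈ Pool.Agent.TH164.A1.carr H from ⟨g₁, hg₁, hPB⟩) hW hdetP d
  intro g hg
  have h4 := hcl.pres_all hn (fun d => (hst d).1) (fun d => (hst d).2) n le_rfl _ _ (inG_of hg)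
    (fun i hi => absurd hi (by omega))
  obtain ⟨y, hy1, hy2⟩ := hHal.mem_of_pres h4 (val_inv g) (inv_val g)
  rw [← Units.ext hy2]
  exact hy1

end Pool.Agent.Results.MP_77d3f5_ag.KugaSatakePeriods
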