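import Mathlib
import Pool.Agent.TH119.TO.Quad

/-!
# Relations of degree two decide whether a period torsor has a proper subtorsor

`E` is the matrix of the comparison isomorphism of a motive over a field `F` of algebraic numbers
(columns: Betti, rows: de Rham) and `B` is its motivic torsor of periods, which is assumed to be
connected and reductive. We show: if no polynomial relation of degree at most `2 D` over `F`
between the entries of `E` is missing from the equations of `B`, then `B` is the smallest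
`K`-subtorsor of `GL_N` which contains `E`, for every extension `K` of `F` of degree at most `D`.
-/

namespace Pool.Agent.Results.MP_77d3f5_ag.QuadraticRelationsDecide

open Matrix

variable {N : Type} [Fintype N] [DecidableEq N]

/-- The complex points of a `K`-subtorsor of `GL_N = Iso(K^N, K^N)`: a set `T` of invertible
matrices with `x y⁻¹ z ∈ T` for all `x, y, z ∈ T`, which is the set of the invertible zeros of a
family of polynomials with coefficients in `K`. -/
structure IsSubtorsor (K : Subfield ℂ) (T : Set (Matrix N N ℂ)) : Prop where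
  isUnit : ∀ x ∈ T, IsUnit x
  torsor : ∀ x ∈ T, ∀ y ∈ T, ∀ z ∈ T, x * y⁻¹ * z ∈ T
  algebraic : ∃ I : Set (MvPolynomial (N × N) ℂ), (∀ p ∈ I, ∀ m, p.coeff m ∈ K) ∧
    ∀ x : Matrix N N ℂ, x ∈ T ↔ IsUnit x ∧
      ∀ p ∈ I, MvPolynomial.eval (fun b => x b.1 b.2) p = 0

/-- The smallest `K`-subtorsor which contains `E`: the intersection of all of them. -/
def smallestSubtorsor (K : Subfield ℂ) (E : Matrix N N ℂ) : Set (Matrix N N ℂ) :=
  {X | ∀ T : Set (Matrix N N ℂ), IsSubtorsor K T → E ∈ T → X ∈ T}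

/-- The Lie algebra of the group `G = {u | E u ∈ B}`: the matrices `Y` with `exp(t Y) ∈ G` for all
complex numbers `t`. -/
def lieAlgebra (B : Set (Matrix N N ℂ)) (E : Matrix N N ℂ) : Set (Matrix N N ℂ) :=
  {Y | ∀ t : ℂ, E * NormedSpace.exp (t • Y) ∈ B}

/-- `W` is stable under conjugation by all elements of the group `G = {u | E u ∈ B}`. -/
def AdStable (B : Set (Matrix N N ℂ)) (E : Matrix N N ℂ) (W : Submodule ℂ (Matrix N N ℂ)) : Prop :=
  ∀ u : Matrix N N ℂ, E * u ∈ B → ∀ X ∈ W, u⁻¹ * X * u ∈ W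

/-- The group `G = {u | E u ∈ B}` is connected: it is generated by the exponentials of the elements
of its Lie algebra. -/
def IsConn (B : Set (Matrix N N ℂ)) (E : Matrix N N ℂ) : Prop :=
  ∀ u : Matrix N N ℂ, E * u ∈ B → ∃ L : List (Matrix N N ℂ), (∀ Y ∈ L, Y ∈ lieAlgebra B E) ∧
    (L.map fun Y => NormedSpace.exp Y).prod = u

/-- The adjoint representation of `G = {u | E u ∈ B}` is completely reducible. -/
def IsAdReductive (B : Set (Matrix N N ℂ)) (E : Matrix N N ℂ) : Prop :=
  ∀ W : Submodule ℂ (Matrix N N ℂ), (W : Set (Matrix N N ℂ)) ⊆ lieAlgebra B E → AdStable B E W →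
    ∃ W' : Submodule ℂ (Matrix N N ℂ), (W' : Set (Matrix N N ℂ)) ⊆ lieAlgebra B E ∧
      AdStable B E W' ∧ W ⊓ W' = ⊥ ∧ ∀ Y ∈ lieAlgebra B E, ∃ X ∈ W, ∃ Z ∈ W', Y = X + Z

/-- `W` has algebraic periods: it is spanned by matrices `X ∈ W` such that `X` and `E X E⁻¹` have
algebraic entries. -/
def HasAlgebraicPeriods (E : Matrix N N ℂ) (W : Submodule ℂ (Matrix N N ℂ)) : Prop :=
  W ≤ Submodule.span ℂ {X | X ∈ W ∧ (∀ i j, IsAlgebraic ℚ (X i j)) ∧
    ∀ i j, IsAlgebraic ℚ ((E * X * E⁻¹) i j)}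

/-- Every polynomial of degree at most `n` with coefficients in `F` which vanishes at `E` vanishes
on `B`. -/
def NoExtraRelation (F : Subfield ℂ) (n : ℕ) (E : Matrix N N ℂ) (B : Set (Matrix N N ℂ)) : Prop :=
  ∀ p : MvPolynomial (N × N) ℂ, (∀ m, p.coeff m ∈ F) → p.totalDegree ≤ n →
    MvPolynomial.eval (fun b => E b.1 b.2) p = 0 →
    ∀ X ∈ B, MvPolynomial.eval (fun b => X b.1 b.2) p = 0

/-! ### Proof -/

theorem isUnit_iff (x : Matrix N N ℂ) : IsUnit x ↔ ∃ y, x * y = 1 ∧ y * x = 1 := by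
  constructor
  · rintro ⟨u, rfl⟩
    exact ⟨(u⁻¹ : (Matrix N N ℂ)ˣ), u.mul_inv, u.inv_mul⟩
  · rintro ⟨y, h1, h2⟩
    exact ⟨⟨x, y, h1, h2⟩, rfl⟩

theorem tors_iff (K : Subfield ℂ) (T : Set (Matrix N N ℂ)) :
    Pool.Agent.TH119.TO.Tors K T ↔ IsSubtorsor K T := by
  constructor
  · intro h
    refine ⟨fun x hx => (isUnit_iff x).2 (h.inv x hx), fun x hx y hy z hz => ?_, ?_⟩
    · obtain ⟨y', h1, h2⟩ := h.inv y hy
      rw [Matrix.inv_eq_right_inv h1]
      exact h.tri x hx y hy z hz y' h1 h2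
    · obtain ⟨I, h1, h2⟩ := h.alg
      exact ⟨I, h1, fun x => by rw [h2, isUnit_iff]⟩
  · intro h
    refine ⟨fun x hx => (isUnit_iff x).1 (h.isUnit x hx), fun x hx y hy z hz y' h1 h2 => ?_, ?_⟩
    · have h3 := h.torsor x hx y hy z hz
      rwa [Matrix.inv_eq_right_inv h1] at h3
    · obtain ⟨I, h1, h2⟩ := h.algebraic
      exact ⟨I, h1, fun x => by rw [h2, isUnit_iff]⟩

/-- **Theorem.** Let `F` be a field of algebraic numbers, `K` a finite extension of `F` in `ℂ` of
degree at most `D`, `B` an `F`-subtorsor of `GL_N` which contains `E`, and `G = {u | E u ∈ B}`.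
Suppose that

* `G` is connected and its adjoint representation is completely reducible;
* there are square matrices `S`, `S'` over `F`, `S'` invertible, such that `X S Xᵀ` is a nonzero
  multiple of `S'` for all `X ∈ B`, and `E S Eᵀ = λ S'` with `λ` transcendental (polarisation);
* every subspace of the Lie algebra of `G` which is stable under `G` and has algebraic periods is
  of dimension at most one;
* every polynomial relation of degree at most `2 D` over `F` between the entries of `E` holds on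
  `B`.

Then `B` is the smallest `K`-subtorsor of `GL_N` which contains `E`. -/
theorem result [Nonempty N] {D : ℕ} (F : Subfield ℂ) (hF : ∀ x ∈ F, IsAlgebraic ℚ x)
    (K : IntermediateField F ℂ) [FiniteDimensional F K] (hK : Module.finrank F K ≤ D)
    (B : Set (Matrix N N ℂ)) (hB : IsSubtorsor F B) (E : Matrix N N ℂ) (hE : E ∈ B)
    (hconn : IsConn B E) (hred : IsAdReductive B E)
    (S S' : Matrix N N F) (hS' : IsUnit S')
    (hpol : ∀ X ∈ B, ∃ c : ℂ, c ≠ 0 ∧ X * S.map (fun a => (a : ℂ)) * Xᵀ =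
      c • S'.map (fun a => (a : ℂ)))
    (lam : ℂ) (hlam : Transcendental ℚ lam)
    (hElam : E * S.map (fun a => (a : ℂ)) * Eᵀ = lam • S'.map (fun a => (a : ℂ)))
    (hper : ∀ W : Submodule ℂ (Matrix N N ℂ), (W : Set (Matrix N N ℂ)) ⊆ lieAlgebra B E →
      AdStable B E W → HasAlgebraicPeriods E W → Module.finrank ℂ W ≤ 1)
    (hrel : NoExtraRelation F (2 * D) E B) :
    smallestSubtorsor K.toSubfield E = B := by
  have hBT := (tors_iff F B).2 hB
  obtain ⟨E', h1, h2⟩ := hBT.inv E hE
  have hEinv : E⁻¹ = E' := Matrix.inv_eq_right_inv h1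
  have hlie : ∀ Y : Matrix N N ℂ, Y ∈ Pool.Agent.TH119.TO.lieB B E ↔ Y ∈ lieAlgebra B E := by
    intro Y
    rw [Pool.Agent.TH119.TO.mem_lieB_stab hBT hE h1 h2, hBT.stab_iff_exp hE h1 h2]
    rfl
  have hle : ∀ W : Submodule ℂ (Matrix N N ℂ), W ≤ Pool.Agent.TH119.TO.lieB B E ↔
      (W : Set (Matrix N N ℂ)) ⊆ lieAlgebra B E := by
    intro W
    constructor
    · intro h X hX
      exact (hlie X).1 (h hX)
    · intro h X hX
      exact (hlie X).2 (h hX)
  have hAd : ∀ W : Submodule ℂ (Matrix N N ℂ), Pool.Agent.TH119.TO.AdStable B E W ↔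
      AdStable B E W := by
    intro W
    constructor
    · intro h u hu X hX
      obtain ⟨v, h3, h4⟩ := hBT.inv _ hu
      have h5 : (v * E) * u = 1 := by rw [Matrix.mul_assoc, h4]
      have h6 : u * (v * E) = 1 := mul_eq_one_comm.1 h5
      rw [Matrix.inv_eq_right_inv h6]
      exact h u (v * E) hu h6 h5 X hX
    · intro h u u' hu h3 h4 X hX
      have h5 := h u hu X hX
      rwa [Matrix.inv_eq_right_inv h3] at h5
  have hmapF : ∀ (M : Matrix N N F) (i j : N), (M.map (fun a => (a : ℂ))) i j ∈ F :=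
    fun M i j => (M i j).2
  have hSS : S'.map (fun a => (a : ℂ)) * (S'⁻¹).map (fun a => (a : ℂ)) = 1 := by
    have h3 : S' * S'⁻¹ = 1 :=
      Matrix.mul_nonsing_inv S' ((Matrix.isUnit_iff_isUnit_det S').1 hS')
    have h4 := congrArg (fun M : Matrix N N F => M.map (fun a => (a : ℂ))) h3
    have h5 : (fun a : F => (a : ℂ)) = (F.subtype : F → ℂ) := rfl
    simp only [h5] at h4 ⊢
    rw [Matrix.map_mul, Matrix.map_one _ (map_zero _) (map_one _)] at h4
    exact h4
  have hBK : IsSubtorsor K.toSubfield B :=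
    (tors_iff _ B).1 (hBT.mono fun x hx => K.algebraMap_mem ⟨x, hx⟩)
  ext X
  constructor
  · intro h
    exact h B hBK hE
  · intro hX T hT hET
    refine Pool.Agent.TH119.TO.quad hF K hK hBT hE h1 h2 (hmapF S) (hmapF S') (hmapF S'⁻¹) hSS
      hpol hElam hlam ?_ ?_ ?_ hrel ((tors_iff _ T).2 hT) hET hX
    · intro u hu
      obtain ⟨L, hL1, hL2⟩ := hconn u hu
      refine ⟨L, fun Y hY => ?_, hL2⟩
      exact (hBT.stab_iff_exp hE h1 h2).2 (hL1 Y hY)
    · intro W hW hWA
      obtain ⟨W', h3, h4, h5, h6⟩ := hred W ((hle W).1 hW) ((hAd W).1 hWA)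
      refine ⟨W', (hle W').2 h3, (hAd W').2 h4, h5, ?_⟩
      apply le_antisymm
      · exact sup_le hW ((hle W').2 h3)
      · intro Y hY
        obtain ⟨X, hX, Z, hZ, rfl⟩ := h6 Y ((hlie Y).1 hY)
        exact Submodule.add_mem_sup hX hZ
    · intro W hW hWA hWp
      refine hper W ((hle W).1 hW) ((hAd W).1 hWA) ?_
      unfold HasAlgebraicPeriods
      rw [hEinv]
      exact hWp

end Pool.Agent.Results.MP_77d3f5_ag.QuadraticRelationsDecide
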